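import Pool.Agent.Helper42.RZ2.Basic
import Pool.Agent.Helper42.RZ.St.S4

/-! # RZ2-R6: random half spaces, points of the unit ball (generalises RZ-S4) -/

set_option autoImplicit false

open MeasureTheory Set Metric Filter Topology
open scoped ENNReal

namespace Pool.Agent.Helper30.RZ2

open Pool.Agent.Helper42.RZ Pool.Agent.Helper42.RZ2

theorem nu_section_ball {u x y : E3} (hu : ‖u‖ = 1) (hx : ‖x‖ ≤ 1) (hy : ‖y‖ ≤ 1) :
    Pool.Agent.Helper59.RZ.nu (Prod.mk u ⁻¹' {ω : E3 × ℝ | x ∈ hs ω ↔ y ∈ hs ω}ᶜ) =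
      ENNReal.ofReal (|inner ℝ u x - inner ℝ u y| / 2) := by
  have b1 : |inner ℝ u x| ≤ 1 := by
    have := abs_real_inner_le_norm u x
    rw [hu, one_mul] at this
    exact this.trans hx
  have b2 : |inner ℝ u y| ≤ 1 := by
    have := abs_real_inner_le_norm u y
    rw [hu, one_mul] at this
    exact this.trans hy
  rw [abs_le] at b1 b2
  set a : ℝ := inner ℝ u x
  set b : ℝ := inner ℝ u y
  have hset : (Prod.mk u ⁻¹' {ω : E3 × ℝ | x ∈ hs ω ↔ y ∈ hs ω}ᶜ) = Ico (min a b) (max a b) := by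
    ext τ
    change (¬ (τ < a ↔ τ < b)) ↔ _
    rw [mem_Ico, min_le_iff, lt_max_iff]
    constructor
    · intro h
      by_cases h1 : τ < a
      · have h2 : ¬ τ < b := fun h2 => h ⟨fun _ => h2, fun _ => h1⟩
        exact ⟨Or.inr (not_lt.1 h2), Or.inl h1⟩
      · have h2 : τ < b := by
          by_contra h2
          exact h ⟨fun h3 => absurd h3 h1, fun h3 => absurd h3 h2⟩
        exact ⟨Or.inl (not_lt.1 h1), Or.inr h2⟩
    · rintro ⟨h1, h2⟩ h3
      rcases h1 with h1 | h1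
      · have : ¬ τ < a := not_lt.2 h1
        rcases h2 with h2 | h2
        · exact this h2
        · exact this (h3.2 h2)
      · have : ¬ τ < b := not_lt.2 h1
        rcases h2 with h2 | h2
        · exact this (h3.1 h2)
        · exact this h2
  rw [hset, Pool.Agent.Helper59.RZ.nu, Measure.smul_apply,
    Measure.restrict_apply measurableSet_Ico, smul_eq_mul]
  have h1 : volume (Ico (min a b) (max a b) ∩ Ioc (-1) 1) = ENNReal.ofReal (max a b - min a b) := by
    rw [← Real.volume_Ioo]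
    refine le_antisymm ?_ ?_
    · rw [Real.volume_Ioo, ← Real.volume_Ico]
      exact measure_mono inter_subset_left
    · refine measure_mono ?_
      intro t ht
      refine ⟨⟨ht.1.le, ht.2⟩, ?_, ?_⟩
      · exact lt_of_le_of_lt (le_min b1.1 b2.1) ht.1
      · exact ht.2.le.trans (max_le b1.2 b2.2)
  rw [h1, max_sub_min_eq_abs, ← ENNReal.ofReal_ofNat, ← ENNReal.ofReal_inv_of_pos (by norm_num),
    ← ENNReal.ofReal_mul (by norm_num), abs_sub_comm]
  congr 1
  ring

theorem plane_ball {x y : E3} (hx : ‖x‖ ≤ 1) (hy : ‖y‖ ≤ 1) :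
    plm.real {ω | x ∈ hs ω ↔ y ∈ hs ω} = 1 - ‖x - y‖ / 4 := by
  obtain ⟨e, he, hxe⟩ : ∃ e : E3, ‖e‖ = 1 ∧ x - y = ‖x - y‖ • e := by
    by_cases h : x - y = 0
    · refine ⟨EuclideanSpace.single (0 : Fin 3) (1 : ℝ), by simp, by rw [h]; simp⟩
    · refine ⟨‖x - y‖⁻¹ • (x - y), ?_, ?_⟩
      · rw [norm_smul, norm_inv, norm_norm, inv_mul_cancel₀ (norm_ne_zero_iff.2 h)]
      · rw [smul_smul, mul_inv_cancel₀ (norm_ne_zero_iff.2 h), one_smul]
  have hm := Pool.Agent.Helper59.RZ.measurableSet_iff x y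
  have hc : plm.real {ω : E3 × ℝ | x ∈ hs ω ↔ y ∈ hs ω}ᶜ = ‖x - y‖ / 4 := by
    have hk : Measurable (fun r : ℝ => ‖x - y‖ / 2 * |1 - r ^ 2 / 2|) :=
      Continuous.measurable (by fun_prop)
    have h1 : plm {ω : E3 × ℝ | x ∈ hs ω ↔ y ∈ hs ω}ᶜ =
        ∫⁻ u, ENNReal.ofReal (‖x - y‖ / 2 * |1 - ‖e - u‖ ^ 2 / 2|) ∂sig := by
      rw [Pool.Agent.Helper59.RZ.plm_eq, Measure.prod_apply hm.compl]
      refine lintegral_congr_ae ?_
      filter_upwards [ae_norm_sig] with u hu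
      rw [nu_section_ball hu hx hy, ← inner_sub_right, hxe, inner_smul_right, abs_mul,
        norm_smul, he, mul_one, norm_norm, abs_norm]
      congr 1
      have : (inner ℝ u e : ℝ) = 1 - ‖e - u‖ ^ 2 / 2 := by
        rw [norm_sub_sq_real, he, hu, real_inner_comm]
        ring
      rw [this]
      ring
    rw [Measure.real, h1, ← integral_eq_lintegral_of_nonneg_ae, integral_dist he hk,
      Pool.Agent.Helper59.RZ.bg_lin]
    · exact Filter.Eventually.of_forall fun u => by positivity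
    · exact (hk.comp (by fun_prop)).aestronglyMeasurable
  have h2 := probReal_compl_eq_one_sub (μ := plm) hm
  rw [hc] at h2
  linarith

theorem planes_ball {x y : E3} (hx : ‖x‖ ≤ 1) (hy : ‖y‖ ≤ 1) (M : ℕ) :
    (Measure.pi (fun _ : Fin M => plm)).real {ω | ∀ m, x ∈ hs (ω m) ↔ y ∈ hs (ω m)} =
      (1 - ‖x - y‖ / 4) ^ M := by
  have h : {ω : Fin M → E3 × ℝ | ∀ m, x ∈ hs (ω m) ↔ y ∈ hs (ω m)} =
      Set.pi univ (fun _ => {ω : E3 × ℝ | x ∈ hs ω ↔ y ∈ hs ω}) := by
    ext ω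
    simp [Set.mem_pi]
  rw [h, Measure.real, Measure.pi_pi, ENNReal.toReal_prod]
  simp only [Finset.prod_const, Finset.card_univ, Fintype.card_fin]
  congr 1
  exact plane_ball hx hy

end Pool.Agent.Helper30.RZ2
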